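import Pool.Agent.W157.SCZ.CoverZ

set_option autoImplicit false

/-!
Five-cycle double covers through a 2-regular subgraph D from nowhere-zero 4-flows modulo D on the
components of G - E(D).

Proof. View the pair (A, B) as a flow f over F_4 and let T be the set of its zeros on D. If an even
set J meets D exactly in T then D, J, D + J + A, D + J + B, D + J + A + B are the five sets. Such a J
exists when every component of G - E(D) contains an even number of vertices of odd degree in T.
Scaling f by nonzero elements of F_4 separately on the components turns these parities into Hermitian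
forms with zero sum, which have a common zero without zero coordinates (Pool.Agent.H164R2.solve).
-/

namespace Pool.Agent.Results.MP_7cf8d2_co.FourFlowModulo

open Finset
open Pool.Agent.Helper347.Sab

variable {V E : Type} [Fintype V] [DecidableEq V] [Fintype E] [DecidableEq E]

/-- `v` and `u` lie in the same component of `G - E(D)`: they are joined by a path of edges outside
`D`. -/
def Joined (G : MGraph V E) (D : Finset E) (v u : V) : Prop :=
  Relation.ReflTransGen (fun x y => ∃ e, e ∉ D ∧ G.ends e = s(x, y)) v u

/-- Let `G` be a finite loopless multigraph and `D` a set of edges of `G` such that every vertex has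
degree 0 or 2 in `D`. Suppose that for every component `K` of `G - E(D)` there are two even edge sets
`A`, `B` of `G` whose edges outside `D` are, taken together, exactly the edges of `K` (that is,
`K ∪ D` has a nowhere-zero 4-flow after contraction of `D`). Then there are four even edge sets
`Q 0, ..., Q 3` such that every edge of `G` lies in exactly two of the five sets `D, Q 0, ..., Q 3`. -/
theorem result {V E : Type} [Fintype V] [DecidableEq V] [Fintype E] [DecidableEq E]
    (G : MGraph V E) (D : Finset E) (hD : ∀ v, dg G D v = 0 ∨ dg G D v = 2)
    (h : ∀ v : V, ∃ A B : Finset E, (∀ w, Even (dg G A w)) ∧ (∀ w, Even (dg G B w)) ∧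
      ∀ f, f ∉ D → ((f ∈ A ∨ f ∈ B) ↔ ∀ u ∈ G.ends f, Joined G D v u)) :
    ∃ Q : Fin 4 → Finset E, (∀ i v, Even (dg G (Q i) v)) ∧
      ∀ e, (if e ∈ D then 1 else 0) + (univ.filter fun i => e ∈ Q i).card = 2 := by
  have hJ : ∀ v u, Joined G D v u ↔ Pool.Agent.Helper998.Near.Rch G (univ \ D) v u := by
    intro v u
    unfold Joined Pool.Agent.Helper998.Near.Rch
    simp only [mem_sdiff, mem_univ, true_and]
  obtain ⟨Q, h1, h2, _⟩ := Pool.Agent.W157.SCZ.strongZ G univ D ∅ (disjoint_empty_left _)
    (subset_univ _) hD (by
    intro v
    obtain ⟨A, B, a1, b1, hf⟩ := h v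
    refine ⟨A, B, a1, b1, subset_univ _, subset_univ _, ?_, ?_⟩
    · intro f hfD hAB u hu
      exact (hJ v u).1 ((hf f hfD).1 hAB u hu)
    · intro f _ hfD _ hr
      exact (hf f hfD).2 fun u hu => (hJ v u).2 (hr u hu))
  refine ⟨Q, h1, fun e => ?_⟩
  rw [h2 e (by simp), if_pos (mem_univ e)]

end Pool.Agent.Results.MP_7cf8d2_co.FourFlowModulo
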